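import Pool.Agent.Lib.P45dba8.LoneFive
import Pool.Agent.Lib.P45dba8.Lone3Fin

set_option autoImplicit false

namespace Pool.Agent.Results.MP_45dba8_co.ClassOne

/-- The circular distance `min (|x - y|, n - |x - y|)` of two classes modulo `n`, computed from
their representatives in `0, ..., n - 1`. -/
def d {n : ℕ} (x y : ZMod n) : ℕ := min (Nat.dist x.val y.val) (n - Nat.dist x.val y.val)

theorem d_comm {n : ℕ} (x y : ZMod n) : d x y = d y x := by
  unfold d
  rw [Nat.dist_comm]

/-- The extended Petersen graph `XP(2n, S)`, `n = 4k+1`. The layers `1` and `2` of the problem are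
`0` and `1` in `Fin 2`; the complement of `S` is taken in `{1, ..., 2k}`; the last clause joins the
two copies of each `x`. -/
def XP (k : ℕ) (S : Finset ℕ) : SimpleGraph (ZMod (4 * k + 1) × Fin 2) where
  Adj p q := p ≠ q ∧
    ((p.2 = 0 ∧ q.2 = 0 ∧ d p.1 q.1 ∈ S) ∨
     (p.2 = 1 ∧ q.2 = 1 ∧ d p.1 q.1 ∈ Finset.Icc 1 (2 * k) \ S) ∨
     p.1 = q.1)
  symm := ⟨fun p q h => by
    obtain ⟨h1, h2⟩ := h
    refine ⟨h1.symm, ?_⟩
    rw [d_comm]
    rcases h2 with h2 | h2 | h2
    · exact Or.inl ⟨h2.2.1, h2.1, h2.2.2⟩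
    · exact Or.inr (Or.inl ⟨h2.2.1, h2.1, h2.2.2⟩)
    · exact Or.inr (Or.inr h2.symm)⟩
  loopless := ⟨fun _ h => h.1 rfl⟩

theorem d_eq {n : ℕ} [NeZero n] (x y : ZMod n) : d x y = min (x - y).val (y - x).val := by
  unfold d
  rcases lt_trichotomy x.val y.val with h | h | h
  · have h1 : (y - x).val = y.val - x.val := ZMod.val_sub h.le
    have h2 : (x - y).val = n - (y.val - x.val) := by
      have : x - y = -(y - x) := by ring
      rw [this, ZMod.neg_val, h1, if_neg]
      intro h0
      rw [h0, ZMod.val_zero] at h1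
      omega
    rw [h1, h2, Nat.dist_eq_sub_of_le h.le, min_comm]
  · have hxy : x = y := ZMod.val_injective n h
    subst hxy
    rw [sub_self, ZMod.val_zero, Nat.dist_self]
    simp
  · have h1 : (x - y).val = x.val - y.val := ZMod.val_sub h.le
    have h2 : (y - x).val = n - (x.val - y.val) := by
      have : y - x = -(x - y) := by ring
      rw [this, ZMod.neg_val, h1, if_neg]
      intro h0
      rw [h0, ZMod.val_zero] at h1
      omega
    rw [h1, h2, Nat.dist_eq_sub_of_le_right h.le]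

theorem d_self {n : ℕ} (x : ZMod n) : d x x = 0 := by
  unfold d
  rw [Nat.dist_self]
  simp

theorem fin_two_ne {i j : Fin 2} (h : i ≠ j) : (i = 0 ∧ j = 1) ∨ (i = 1 ∧ j = 0) := by
  revert h
  revert i j
  decide

theorem adj_iff {k : ℕ} {S : Finset ℕ} (hS : S ⊆ Finset.Icc 1 (2 * k))
    (p q : ZMod (4 * k + 1) × Fin 2) : (XP k S).Adj p q ↔
      ((p.2 = 0 ∧ q.2 = 0 ∧ min (p.1 - q.1).val (q.1 - p.1).val ∈ S) ∨
       (p.2 = 1 ∧ q.2 = 1 ∧
          min (p.1 - q.1).val (q.1 - p.1).val ∈ Finset.Icc 1 (2 * k) \ S) ∨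
       (p.1 = q.1 ∧ p.2 ≠ q.2)) := by
  rw [← d_eq]
  show (p ≠ q ∧ _) ↔ _
  have hz : ∀ x : ZMod (4 * k + 1), d x x ∉ S := by
    intro x hx
    rw [d_self] at hx
    have := Finset.mem_Icc.1 (hS hx)
    omega
  have hz' : ∀ x : ZMod (4 * k + 1), d x x ∉ Finset.Icc 1 (2 * k) \ S := by
    intro x hx
    rw [d_self] at hx
    have := Finset.mem_Icc.1 (Finset.mem_sdiff.1 hx).1
    omega
  constructor
  · rintro ⟨hne, h | h | h⟩
    · exact Or.inl h
    · exact Or.inr (Or.inl h)
    · exact Or.inr (Or.inr ⟨h, fun h' => hne (Prod.ext h h')⟩)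
  · rintro (h | h | h)
    · refine ⟨?_, Or.inl h⟩
      intro he
      rw [he] at h
      exact hz _ h.2.2
    · refine ⟨?_, Or.inr (Or.inl h)⟩
      intro he
      rw [he] at h
      exact hz' _ h.2.2
    · exact ⟨fun he => h.2 (by rw [he]), Or.inr (Or.inr h.1)⟩

theorem card_aux {k : ℕ} (R : Finset ℕ) (hR : R ⊆ Finset.Icc 1 (2 * k)) (hc : R.card = k)
    (x : ZMod (4 * k + 1)) (i j : Fin 2) (hij : i ≠ j) (N : Set (ZMod (4 * k + 1) × Fin 2))
    (hN : ∀ q, q ∈ N ↔ ((q.2 = i ∧ min (x - q.1).val (q.1 - x).val ∈ R) ∨ q = (x, j))) :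
    N.ncard = 2 * k + 1 := by
  classical
  have hD := P45.dset_card k R hR
  obtain ⟨D, hDD⟩ : ∃ D, D = (Finset.univ : Finset (ZMod (4 * k + 1))).filter
      (fun x => x ∈ P45.DSet k R) := ⟨_, rfl⟩
  rw [← hDD, hc] at hD
  have hmem : ∀ δ, δ ∈ D ↔ min δ.val (-δ).val ∈ R := by
    intro δ
    rw [hDD, Finset.mem_filter]
    exact ⟨fun h => h.2, fun h => ⟨Finset.mem_univ _, h⟩⟩
  have hinj : Function.Injective (fun δ : ZMod (4 * k + 1) => (x + δ, i)) := by
    intro a b hab
    exact add_left_cancel (congrArg Prod.fst hab)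
  have e : N = ((D.image (fun δ => (x + δ, i)) ∪ {(x, j)} : Finset (ZMod (4 * k + 1) × Fin 2)) :
      Set (ZMod (4 * k + 1) × Fin 2)) := by
    ext q
    rw [hN, Finset.mem_coe, Finset.mem_union, Finset.mem_image, Finset.mem_singleton]
    constructor
    · rintro (⟨h1, h2⟩ | h)
      · left
        refine ⟨q.1 - x, ?_, ?_⟩
        · rw [hmem, neg_sub, min_comm]
          exact h2
        · show (x + (q.1 - x), i) = q
          rw [add_sub_cancel, ← h1]
      · exact Or.inr h
    · rintro (⟨δ, h1, h2⟩ | h)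
      · left
        rw [← h2]
        refine ⟨rfl, ?_⟩
        rw [hmem] at h1
        show min (x - (x + δ)).val (x + δ - x).val ∈ R
        rw [sub_add_cancel_left, add_sub_cancel_left, min_comm]
        exact h1
      · exact Or.inr h
  rw [e, Set.ncard_coe_finset, Finset.card_union_of_disjoint, Finset.card_image_of_injective _ hinj,
    hD, Finset.card_singleton]
  rw [Finset.disjoint_singleton_right, Finset.mem_image]
  rintro ⟨δ, -, h⟩
  exact hij (congrArg Prod.snd h)

theorem degree_eq {k : ℕ} {S : Finset ℕ} (hS : S ⊆ Finset.Icc 1 (2 * k)) (hc : S.card = k)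
    (p : ZMod (4 * k + 1) × Fin 2) : ((XP k S).neighborSet p).ncard = 2 * k + 1 := by
  have h01 : (0 : Fin 2) ≠ 1 := by decide
  have h10 : (1 : Fin 2) ≠ 0 := by decide
  obtain ⟨x, i⟩ := p
  have hi : i = 0 ∨ i = 1 := by
    revert i
    decide
  rcases hi with rfl | rfl
  · refine card_aux S hS hc x 0 1 (by decide) _ ?_
    intro q
    rw [SimpleGraph.mem_neighborSet, adj_iff hS]
    constructor
    · rintro (h | h | h)
      · exact Or.inl ⟨h.2.1, h.2.2⟩
      · exact absurd h.1 h01
      · right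
        rcases fin_two_ne h.2 with h2 | h2
        · exact Prod.ext h.1.symm h2.2
        · exact absurd h2.1 h01
    · rintro (h | h)
      · exact Or.inl ⟨rfl, h.1, h.2⟩
      · rw [h]
        exact Or.inr (Or.inr ⟨rfl, h01⟩)
  · refine card_aux (Finset.Icc 1 (2 * k) \ S) Finset.sdiff_subset ?_ x 1 0 (by decide) _ ?_
    · rw [Finset.card_sdiff_of_subset hS, Nat.card_Icc, hc]
      omega
    · intro q
      rw [SimpleGraph.mem_neighborSet, adj_iff hS]
      constructor
      · rintro (h | h | h)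
        · exact absurd h.1 h10
        · exact Or.inl ⟨h.2.1, h.2.2⟩
        · right
          rcases fin_two_ne h.2 with h2 | h2
          · exact absurd h2.1 h10
          · exact Prod.ext h.1.symm h2.2
      · rintro (h | h)
        · exact Or.inr (Or.inl ⟨rfl, h.1, h.2⟩)
        · rw [h]
          exact Or.inr (Or.inr ⟨rfl, h10⟩)

/-- Horák–Rosa: for every `k ≥ 2` and every `S ⊆ {1, ..., 2k}` with `|S| = k`, the extended
Petersen graph `XP(2n, S)`, `n = 4k+1`, is `(2k+1)`-regular and its chromatic index (the chromatic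
number of its line graph) is `2k+1`: it is Class 1. -/
theorem result (k : ℕ) (hk : 2 ≤ k) (S : Finset ℕ) (hS : S ⊆ Finset.Icc 1 (2 * k))
    (hc : S.card = k) :
    (∀ p, ((XP k S).neighborSet p).ncard = 2 * k + 1) ∧
      (XP k S).lineGraph.chromaticNumber = 2 * k + 1 := by
  refine ⟨degree_eq hS hc, le_antisymm ?_ ?_⟩
  · obtain ⟨c, hcol⟩ := P45.main_of_nonHam P45.lone3 P45.lone5 k hk S hS hc (XP k S)
      (fun p q => adj_iff hS p q)
    have hcolor : (XP k S).lineGraph.Colorable (2 * k + 1) := by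
      refine ⟨⟨fun e => c e.1, ?_⟩⟩
      intro e f hef
      rw [SimpleGraph.lineGraph_adj_iff_exists] at hef
      exact hcol e.1 e.2 f.1 f.2 (fun h => hef.1 (Subtype.ext h)) hef.2
    have := hcolor.chromaticNumber_le
    push_cast at this
    exact this
  · have h := SimpleGraph.le_chromaticNumber_of_pairwise_adj (G := (XP k S).lineGraph)
      (n := 2 * k + 1) (ι := (XP k S).neighborSet ((0 : ZMod (4 * k + 1)), (0 : Fin 2)))
      (by
        rw [Nat.card_coe_set_eq, degree_eq hS hc])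
      (fun q => ⟨s(((0 : ZMod (4 * k + 1)), (0 : Fin 2)), q.1), q.2⟩) (by
        intro q q' hne
        rw [SimpleGraph.lineGraph_adj_iff_exists]
        refine ⟨?_, ((0 : ZMod (4 * k + 1)), (0 : Fin 2)), Sym2.mem_mk_left _ _,
          Sym2.mem_mk_left _ _⟩
        intro he
        apply hne
        have := Subtype.ext_iff.1 he
        exact Subtype.ext (Sym2.congr_right.1 this))
    push_cast at h
    exact h

end Pool.Agent.Results.MP_45dba8_co.ClassOne
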